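import Pool.Agent.helper67.TSC.Spec

/-!
Row tsc:BDK: few bad `k`.
-/

set_option autoImplicit false

open Finset

noncomputable section

namespace Pool.Agent.TSC

open Pool.Agent.EP

theorem BDK_one (B h s t : ℕ) (A : Finset ℕ)
    (hA : ∀ k ∈ A, (2 : ℤ) ^ h * |((k * B : ℕ) : ℤ) - 48 * (t : ℤ) ^ 2| ≤ 8 * (s : ℤ)) :
    2 ^ h * B * #A ≤ 16 * s + 2 ^ h * B := by
  rcases A.eq_empty_or_nonempty with h0 | h0
  · subst h0
    simp
  · have hm := hA _ (A.min'_mem h0)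
    have hM := hA _ (A.max'_mem h0)
    set m := A.min' h0
    set M := A.max' h0
    have hle : m ≤ M := A.min'_le _ (A.max'_mem h0)
    have hsub : A ⊆ Icc m M := fun k hk => mem_Icc.2 ⟨A.min'_le _ hk, A.le_max' _ hk⟩
    have hc : #A ≤ M + 1 - m := by
      have := card_le_card hsub
      rwa [Nat.card_Icc] at this
    obtain ⟨d, hd⟩ : ∃ d, M = m + d := ⟨M - m, by omega⟩
    have hc' : #A ≤ d + 1 := by omega
    have h2 : (0 : ℤ) ≤ 2 ^ h := by positivity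
    have h3 : (2 : ℤ) ^ h * (((M * B : ℕ) : ℤ) - 48 * (t : ℤ) ^ 2) ≤ 8 * s :=
      (mul_le_mul_of_nonneg_left (le_abs_self _) h2).trans hM
    have h4 : -(8 * (s : ℤ)) ≤ (2 : ℤ) ^ h * (((m * B : ℕ) : ℤ) - 48 * (t : ℤ) ^ 2) := by
      have := mul_le_mul_of_nonneg_left (neg_abs_le (((m * B : ℕ) : ℤ) - 48 * (t : ℤ) ^ 2)) h2
      linarith
    have h5 : (2 : ℤ) ^ h * B * d ≤ 16 * s := by
      rw [hd] at h3
      push_cast at h3 h4 ⊢
      nlinarith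
    have h6 : 2 ^ h * B * d ≤ 16 * s := by exact_mod_cast h5
    calc 2 ^ h * B * #A ≤ 2 ^ h * B * (d + 1) := Nat.mul_le_mul_left _ hc'
      _ = 2 ^ h * B * d + 2 ^ h * B := by ring
      _ ≤ 16 * s + 2 ^ h * B := Nat.add_le_add_right h6 _

theorem BDK : BDK_stmt := by
  classical
  intro K B h hB hK
  set s := Nat.sqrt (2 * K * B) with hs
  have hs2 : s * s ≤ 2 * K * B := Nat.sqrt_le _
  have hs3 : 2 * K * B < (s + 1) * (s + 1) := Nat.lt_succ_sqrt _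
  have hD : 2 ^ h * B ≤ s := by
    rw [hs, Nat.le_sqrt]
    calc 2 ^ h * B * (2 ^ h * B) = (4 ^ h * B) * B := by
          have : (4 : ℕ) ^ h = 2 ^ h * 2 ^ h := by
            rw [← mul_pow]
            norm_num
          rw [this]
          ring
      _ ≤ K * B := Nat.mul_le_mul_right _ hK
      _ ≤ 2 * K * B := Nat.mul_le_mul_right _ (by omega)
  have h2h : 1 ≤ 2 ^ h := Nat.one_le_two_pow
  have hDpos : 1 ≤ 2 ^ h * B := Nat.mul_pos h2h hB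
  have hs1 : 1 ≤ s := hDpos.trans hD
  let A : ℕ → Finset ℕ := fun t => {k ∈ Ioc K (2 * K) |
    (2 : ℤ) ^ h * |((k * B : ℕ) : ℤ) - 48 * (t : ℤ) ^ 2| ≤ 8 * (s : ℤ)}
  set Z : Finset ℕ := {k ∈ Ioc K (2 * K) | ∃ t : ℕ,
      (2 : ℤ) ^ h * |((k * B : ℕ) : ℤ) - 48 * (t : ℤ) ^ 2| ≤ 8 * (Nat.sqrt (k * B) : ℤ)} with hZ
  have hsub : Z ⊆ (range (s + 1)).biUnion A := by
    intro k hk
    obtain ⟨hk1, t, ht⟩ := mem_filter.1 hk
    have hk2 := (mem_Ioc.1 hk1).2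
    have hkB : k * B ≤ 2 * K * B := Nat.mul_le_mul_right _ hk2
    have h1 : Nat.sqrt (k * B) ≤ s := Nat.sqrt_le_sqrt hkB
    have h1' : ((Nat.sqrt (k * B) : ℕ) : ℤ) ≤ s := by exact_mod_cast h1
    have h2 : (2 : ℤ) ^ h * |((k * B : ℕ) : ℤ) - 48 * (t : ℤ) ^ 2| ≤ 8 * (s : ℤ) := by linarith
    refine mem_biUnion.2 ⟨t, ?_, mem_filter.2 ⟨hk1, h2⟩⟩
    rw [mem_range]
    by_contra hcon
    have hts : s + 1 ≤ t := not_lt.1 hcon
    have h3 : |((k * B : ℕ) : ℤ) - 48 * (t : ℤ) ^ 2| ≤ 8 * (s : ℤ) := by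
      have h4 : (1 : ℤ) ≤ 2 ^ h := by exact_mod_cast h2h
      have h5 := abs_nonneg (((k * B : ℕ) : ℤ) - 48 * (t : ℤ) ^ 2)
      nlinarith
    have h6 : 48 * (t : ℤ) ^ 2 ≤ ((k * B : ℕ) : ℤ) + 8 * s := by
      have := neg_abs_le (((k * B : ℕ) : ℤ) - 48 * (t : ℤ) ^ 2)
      linarith
    have h7 : ((k * B : ℕ) : ℤ) < ((s : ℤ) + 1) * (s + 1) := by
      have := lt_of_le_of_lt hkB hs3
      exact_mod_cast this
    have h8 : ((s : ℤ) + 1) ≤ t := by exact_mod_cast hts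
    have h9 : (0 : ℤ) ≤ s := by positivity
    nlinarith
  have hcard : #Z ≤ ∑ t ∈ range (s + 1), #(A t) :=
    (card_le_card hsub).trans card_biUnion_le
  have hone : ∀ t ∈ range (s + 1), 2 ^ h * B * #(A t) ≤ 17 * s := by
    intro t _
    have := BDK_one B h s t (A t) (fun k hk => (mem_filter.1 hk).2)
    omega
  have htot : 2 ^ h * B * #Z ≤ (s + 1) * (17 * s) := by
    calc 2 ^ h * B * #Z ≤ 2 ^ h * B * ∑ t ∈ range (s + 1), #(A t) := Nat.mul_le_mul_left _ hcard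
      _ = ∑ t ∈ range (s + 1), 2 ^ h * B * #(A t) := by rw [mul_sum]
      _ ≤ ∑ t ∈ range (s + 1), 17 * s := sum_le_sum hone
      _ = (s + 1) * (17 * s) := by rw [sum_const, card_range, smul_eq_mul]
  have hfin : B * (2 ^ h * #Z) ≤ B * (72 * K) := by
    calc B * (2 ^ h * #Z) = 2 ^ h * B * #Z := by ring
      _ ≤ (s + 1) * (17 * s) := htot
      _ ≤ 34 * (s * s) := by nlinarith
      _ ≤ 34 * (2 * K * B) := Nat.mul_le_mul_left _ hs2
      _ ≤ B * (72 * K) := by nlinarith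
  exact Nat.le_of_mul_le_mul_left hfin hB

end Pool.Agent.TSC
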